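import Mathlib

namespace Pool.Agent.H.MP_636246_an

open MeasureTheory Filter Topology Real Finset Metric

/-- Entropy of the partition into `P`-names of length `n`. -/
noncomputable def Hn (f : ℂ × ℂ → ℂ × ℂ) (μ : Measure (ℂ × ℂ)) {k : ℕ} (P : ℂ × ℂ → Fin k)
    (n : ℕ) : ℝ :=
  ∑ w : Fin n → Fin k, negMulLog (μ.real {x | ∀ i : Fin n, P (f^[i] x) = w i})

/-- Kolmogorov-Sinai entropy. -/
noncomputable def ks (f : ℂ × ℂ → ℂ × ℂ) (μ : Measure (ℂ × ℂ)) : EReal :=
  ⨆ (k : ℕ) (P : ℂ × ℂ → Fin k) (_ : Measurable P),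
    limsup (fun n : ℕ => ((Hn f μ P n / n : ℝ) : EReal)) atTop

/-- Invariant Borel probability measures. -/
def Inv (f : ℂ × ℂ → ℂ × ℂ) (μ : Measure (ℂ × ℂ)) : Prop :=
  IsProbabilityMeasure μ ∧ MeasurePreserving f μ μ

/-- Pressure of the weight `φ`. -/
noncomputable def pr (f : ℂ × ℂ → ℂ × ℂ) (φ : ℂ × ℂ → ℝ) : EReal :=
  ⨆ (ν : Measure (ℂ × ℂ)) (_ : Inv f ν), ks f ν + (∫ x, φ x ∂ν : ℝ)

/-- Equilibrium states of the weight `φ`. -/
def IsEq (f : ℂ × ℂ → ℂ × ℂ) (φ : ℂ × ℂ → ℝ) (μ : Measure (ℂ × ℂ)) : Prop :=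
  Inv f μ ∧ ks f μ + (∫ x, φ x ∂μ : ℝ) = pr f φ

/-- The Henon map `(x, y) ↦ (y, p y - a x)`. -/
noncomputable def hen (p : Polynomial ℂ) (a : ℂ) (z : ℂ × ℂ) : ℂ × ℂ := (z.2, p.eval z.2 - a * z.1)

/-- Saddle points fixed by the `n`-th iterate. -/
def SP (f : ℂ × ℂ → ℂ × ℂ) (n : ℕ) : Set (ℂ × ℂ) :=
  {x | f^[n] x = x ∧ ∃ l m : ℂ, 1 < ‖l‖ ∧ ‖m‖ < 1 ∧
    Module.End.HasEigenvalue (fderiv ℂ f^[n] x).toLinearMap l ∧
    Module.End.HasEigenvalue (fderiv ℂ f^[n] x).toLinearMap m}

/-- The weighted sum of Dirac masses at the saddles, normalised with the number `P`. -/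
noncomputable def wm (f : ℂ × ℂ → ℂ × ℂ) (φ : ℂ × ℂ → ℝ) (P : ℝ) (n : ℕ) : Measure (ℂ × ℂ) :=
  Measure.sum fun x : SP f n =>
    ENNReal.ofReal (exp (-(n * P)) * exp (∑ j ∈ range n, φ (f^[j] x))) • Measure.dirac (x : ℂ × ℂ)

lemma gibbs {X U : Type} [MeasurableSpace X] (μ : Measure X) [IsProbabilityMeasure μ] [Fintype U]
    [MeasurableSpace U] [MeasurableSingletonClass U] {a : X → U} (ha : Measurable a) (q : U → ℝ)
    (q0 : ∀ w, 0 ≤ q w) (q1 : ∑ w, q w ≤ 1) (G : X → ℝ) (hG : Integrable G μ)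
    (h : ∀ᵐ x ∂μ, exp (-G x) ≤ q (a x)) : ∑ w, negMulLog (μ.real (a ⁻¹' {w})) ≤ ∫ x, G x ∂μ := by
  set m := fun w => μ.real (a ⁻¹' {w})
  have br (F : U → ℝ) : ∫ x, F (a x) ∂μ = ∑ w, m w * F w := by
    rw [← integral_map ha.aemeasurable (measurable_of_finite F).aestronglyMeasurable,
      integral_fintype .of_finite]
    exact sum_congr rfl fun w _ => by rw [smul_eq_mul, map_measureReal_apply ha (.singleton w)]
  have pos : ∀ᵐ x ∂μ, 0 < m (a x) := by
    have : ∀ᵐ x ∂μ, ∀ w, a x = w → 0 < m w := ae_all_iff.2 fun w => by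
      rcases (measureReal_nonneg : 0 ≤ m w).eq_or_lt with e | e
      · exact (measure_eq_zero_iff_ae_notMem.1 ((measureReal_eq_zero_iff).1 e.symm)).mono
          fun x hx e => absurd e hx
      · exact .of_forall fun _ _ => e
    exact this.mono fun x hx => hx _ rfl
  have m1 : ∑ w, m w = 1 := by simpa using (br fun _ => 1).symm
  have : ∫ x, (fun w => -log (m w) - q w / m w + 1) (a x) ∂μ ≤ ∫ x, G x ∂μ := by
    refine integral_mono_ae ((Integrable.of_finite (μ := μ.map a)
      (f := fun w => -log (m w) - q w / m w + 1)).comp_measurable ha) hG ?_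
    filter_upwards [h, pos] with x h p
    have := log_le_sub_one_of_pos (div_pos (exp_pos (-G x)) p)
    rw [log_div (exp_pos _).ne' p.ne', log_exp] at this
    have := div_le_div_of_nonneg_right h p.le
    linarith
  rw [br fun w => -log (m w) - q w / m w + 1] at this
  refine le_trans ?_ this
  have : ∑ w, m w * (q w / m w) ≤ 1 := (sum_le_sum fun w _ => by
    by_cases e : m w = 0
    · simp [e, q0]
    · rw [mul_div_cancel₀ _ e]).trans q1
  simp only [mul_add, mul_sub, sum_add_distrib, sum_sub_distrib, mul_one, m1, negMulLog, mul_neg, neg_mul]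
  linarith

section Q
variable {X : Type} {k : ℕ} (T : Finset X) (nx : X → X → X) (ω : X → Fin k → ℝ)

noncomputable def Q : (n : ℕ) → X → (Fin n → Fin k) → ℝ
  | 0, _, _ => 1
  | n + 1, y, a => ω y (a 0) * ((∑ t ∈ T, Q n (nx y t) (Fin.tail a)) / #T)

lemma Q0 (h : ∀ y j, 0 ≤ ω y j) : ∀ n y a, 0 ≤ Q T nx ω n y a
  | 0, _, _ => zero_le_one
  | n + 1, _, _ => mul_nonneg (h _ _) (div_nonneg (sum_nonneg fun _ _ => Q0 h n _ _) (by positivity))

lemma Q1 (h : ∀ y, ∑ j, ω y j = 1) (hT : T.Nonempty) : ∀ n y, ∑ a, Q T nx ω n y a = 1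
  | 0, _ => by simp [Q]
  | n + 1, y => by
    have : (#T : ℝ) ≠ 0 := by simpa using hT.ne_empty
    rw [← (Fin.consEquiv fun _ => Fin k).sum_comp, Fintype.sum_prod_type]
    have e (j : Fin k) : ∑ a : Fin n → Fin k, Q T nx ω (n + 1) y (Fin.consEquiv (fun _ => Fin k) (j, a)) =
        ω y j := by
      change ∑ a : Fin n → Fin k, ω y j * ((∑ t ∈ T, Q T nx ω n (nx y t) a) / #T) = _
      rw [← mul_sum, ← sum_div, sum_comm]
      simp [Q1 h hT n, this]
    simp only [e, h]

end Q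

lemma bound {f : ℂ × ℂ → ℂ × ℂ} (hf : ContDiff ℝ 1 f) : ∃ α : ℝ, 0 ≤ α ∧ ∀ ν, Inv f ν →
    (∀ᵐ z ∂ν, ‖z‖ ≤ 3) → ∀ p q, ks f ν ≤ (α * ν.real {p, q}ᶜ : ℝ) := by
  classical
  obtain ⟨L, hL⟩ := hf.contDiffOn.exists_lipschitzOnWith one_ne_zero (convex_closedBall 0 4)
    (isCompact_closedBall 0 4)
  obtain ⟨T, -, hT, cT⟩ := finite_cover_balls_of_compact (isCompact_closedBall (0 : ℂ × ℂ) L) one_pos
  lift T to Finset (ℂ × ℂ) using hT
  have nT : T.Nonempty := by
    obtain ⟨t, ht, -⟩ := Set.mem_iUnion₂.1 (cT (mem_closedBall_self L.2)); exact ⟨t, ht⟩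
  have T1 : (1 : ℝ) ≤ #T := by exact_mod_cast nT.card_pos
  refine ⟨log (2 * #T), log_nonneg (by linarith), fun ν ⟨_, hν⟩ hK p q =>
    iSup_le fun k => iSup₂_le fun P hP => EReal.le_of_forall_lt_iff_le.1 fun r hr => ?_⟩
  replace hr := sub_pos.2 (EReal.coe_lt_coe_iff.1 hr)
  set δ := r - log (2 * #T) * ν.real {p, q}ᶜ with hδ
  have k1 : (1 : ℝ) ≤ k := by exact_mod_cast (P 0).pos
  choose B hB cB mB using fun j => (hP (.singleton j)).exists_isCompact_sdiff_lt (μ := ν)
    (measure_ne_top _ _) (ε := .ofReal (δ / 2 / k / k)) (by simp; positivity)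
  obtain ⟨ε, ⟨e0, e1⟩, he⟩ : ∃ ε : ℝ, (0 < ε ∧ ε < 1) ∧ ∀ i j, i ≠ j → ∀ x ∈ B i, ∀ y ∈ B j,
      2 * ε < dist x y := by
    refine (Eventually.and (f := 𝓝[>] (0 : ℝ)) (Ioo_mem_nhdsGT one_pos)
      (eventually_all.2 fun i => eventually_all.2 fun j => ?_)).exists
    by_cases h : i = j
    · simp [h]
    obtain ⟨s, s0, hs⟩ := exists_pos_forall_lt_edist (cB i) (cB j).isClosed
      (Set.disjoint_left.2 fun x a b => h ((hB i a).symm.trans (hB j b)))
    filter_upwards [Ioo_mem_nhdsGT (half_pos (NNReal.coe_pos.2 s0))] with ε hε _ x hx y hy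
    have := hs x hx y hy
    rw [edist_nndist, ENNReal.coe_lt_coe, ← NNReal.coe_lt_coe, coe_nndist] at this
    linarith [hε.2]
  obtain ⟨S, -, hS, cS⟩ := finite_cover_balls_of_compact (isCompact_closedBall (0 : ℂ × ℂ) 3) e0
  lift S to Finset (ℂ × ℂ) using hS
  have nS : S.Nonempty := by
    obtain ⟨t, ht, -⟩ := Set.mem_iUnion₂.1 (cS (mem_closedBall_self zero_le_three)); exact ⟨t, ht⟩
  have S1 : (1 : ℝ) ≤ #S := by exact_mod_cast nS.card_pos
  obtain ⟨l, hl⟩ : ∃ l : ℂ × ℂ → Fin k, ∀ y j, ∀ z ∈ B j, dist z y ≤ ε → l y = j := by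
    refine ⟨fun y => if h : ∃ j, ∃ z ∈ B j, dist z y ≤ ε then h.choose else P 0, fun y j z hz d => ?_⟩
    have h : ∃ j, ∃ z ∈ B j, dist z y ≤ ε := ⟨j, z, hz, d⟩
    obtain ⟨z', hz', d'⟩ := h.choose_spec
    simp only [dif_pos h]
    by_contra c
    linarith [he _ _ c z' hz' z hz, dist_triangle_right z' z y]
  let ω (y : ℂ × ℂ) (j : Fin k) : ℝ := (if l y = j then 1 / 2 else 0) + 1 / 2 / k
  let nx (y t : ℂ × ℂ) := f y + ε • t
  have ω0 (y j) : 0 ≤ ω y j := by positivity
  let β (z : ℂ × ℂ) : ℝ := (⋃ j, B j)ᶜ.indicator (fun _ => log k) z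
  have low : ∀ n x y, (∀ i, ‖f^[i] x‖ ≤ 3) → dist x y ≤ ε →
      exp (-(n * log (2 * #T) + ∑ i ∈ range n, β (f^[i] x))) ≤ Q T nx ω n y fun i => P (f^[i] x) := by
    intro n
    induction n with
    | zero => simp [Q]
    | succ n ih =>
      intro x y hx d
      have x3 : ‖x‖ ≤ 3 := hx 0
      have := hL.dist_le_mul x (by simp; linarith) y (by
        have := norm_le_norm_add_norm_sub' y x
        rw [dist_comm, dist_eq_norm] at d; simp; linarith)
      obtain ⟨t, ht, dt⟩ := Set.mem_iUnion₂.1 (cT (show ε⁻¹ • (f x - f y) ∈ closedBall 0 L by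
        rw [mem_closedBall_zero_iff, norm_smul, norm_inv, norm_of_nonneg e0.le, inv_mul_le_iff₀ e0,
          ← dist_eq_norm, mul_comm]
        exact this.trans (by gcongr)))
      have a := (ih (f x) (nx y t) (fun i => hx (i + 1)) (by
        rw [mem_ball, dist_eq_norm] at dt
        rw [dist_eq_norm, show f x - nx y t = ε • (ε⁻¹ • (f x - f y) - t) by
          rw [smul_sub, smul_inv_smul₀ e0.ne', sub_sub], norm_smul, norm_of_nonneg e0.le]
        exact mul_le_of_le_one_right e0.le dt.le)).trans (single_le_sum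
          (f := fun t => Q T nx ω n (nx y t) fun i => P (f^[i] (f x))) (fun _ _ => Q0 _ _ _ ω0 _ _ _) ht)
      have b : exp (-β x) / 2 ≤ ω y (P x) := by
        by_cases c : x ∈ ⋃ j, B j
        · obtain ⟨j, hj⟩ := Set.mem_iUnion.1 c
          have : (0 : ℝ) ≤ 1 / 2 / k := by positivity
          simp only [β, ω, Set.indicator_of_notMem (Set.notMem_compl_iff.2 c), if_pos ((hl y j x hj d).trans (hB j hj).symm)]
          simp; positivity
        · simp only [β, ω, Set.indicator_of_mem (Set.mem_compl c), exp_neg, exp_log (one_pos.trans_le k1)]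
          exact le_add_of_nonneg_of_le (by positivity) (by ring_nf; rfl)
      refine le_trans (le_of_eq ?_) (mul_le_mul b (div_le_div_of_nonneg_right a (by positivity))
        (by positivity) (ω0 _ _))
      have : exp (-log (2 * #T)) = 1 / 2 / #T := by rw [exp_neg, exp_log (by positivity)]; field_simp
      rw [sum_range_succ', Nat.cast_succ, show ∀ a b c d : ℝ, -((a + 1) * b + (c + d)) =
        -d + (-(a * b + c) + -b) from fun _ _ _ _ => by ring, exp_add, exp_add, this]
      simp only [Function.iterate_succ_apply, Function.iterate_zero_apply]; ring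
  have mB' : MeasurableSet (⋃ j, B j)ᶜ := (MeasurableSet.iUnion fun j => (cB j).measurableSet).compl
  have iβ : Integrable β ν := (integrable_const _).indicator mB'
  have β1 : ∫ x, β x ∂ν ≤ δ / 2 := by
    have : ν.real (⋃ j, B j)ᶜ ≤ δ / 2 / k := by
      refine (measureReal_mono (s₁ := (⋃ j, B j)ᶜ) (s₂ := ⋃ j, P ⁻¹' {j} \ B j) fun x hx => Set.mem_iUnion.2
        ⟨P x, rfl, fun c => hx (Set.mem_iUnion.2 ⟨_, c⟩)⟩).trans ((measureReal_iUnion_fintype_le _).trans
        ((sum_le_card_nsmul _ _ _ fun j _ => ENNReal.toReal_le_of_le_ofReal (by positivity) (mB j).le).trans ?_))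
      simp; field_simp; rfl
    rw [integral_indicator_const _ mB', smul_eq_mul]
    refine (mul_le_mul this (log_le_self (by positivity)) (log_nonneg k1) (by positivity)).trans_eq ?_
    field_simp
  have mpq : MeasurableSet ({p, q}ᶜ : Set (ℂ × ℂ)) := by measurability
  have key (n : ℕ) : Hn f ν P n ≤ log 3 + log #S + n * (r - δ / 2) := by
    let a (x : ℂ × ℂ) (i : Fin n) := P (f^[i] x)
    have ma : Measurable a := measurable_pi_lambda _ fun i => hP.comp (hν.measurable.iterate i)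
    have ib (i : ℕ) : Integrable (fun x => β (f^[i] x)) ν := ((hν.iterate i).integrable_comp iβ.1).2 iβ
    have i2 : Integrable (({p, q}ᶜ : Set (ℂ × ℂ)).indicator fun _ => n * log (2 * #T)) ν :=
      (integrable_const _).indicator mpq
    have := gibbs ν ma (fun w => ((if a p = w then 1 else 0) + (if a q = w then 1 else 0) +
      (∑ y ∈ S, Q T nx ω n y w) / #S) / 3) (fun w => by
        have := sum_nonneg fun y (_ : y ∈ S) => Q0 T nx ω ω0 n y w
        positivity) (by
        rw [← sum_div, sum_add_distrib, sum_add_distrib, ← sum_div, sum_comm]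
        simp [Q1 T nx ω (fun y => by simp [ω, sum_add_distrib]; field_simp; norm_num) nT, nS.ne_empty]
        norm_num)
      (fun x => log 3 + log #S + (({p, q}ᶜ : Set (ℂ × ℂ)).indicator (fun _ => n * log (2 * #T)) x +
        ∑ i ∈ range n, β (f^[i] x)))
      ((integrable_const _).add (i2.add (integrable_finsetSum _ fun i _ => ib i))) (by
        filter_upwards [ae_all_iff.2 fun i => (hν.iterate i).quasiMeasurePreserving.ae hK] with x hx
        have z := sum_nonneg fun y (_ : y ∈ S) => Q0 T nx ω ω0 n y (a x)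
        rw [neg_add, neg_add, exp_add, exp_add, exp_neg, exp_neg, exp_log three_pos, exp_log (by positivity),
          mul_assoc, inv_mul_eq_div]
        gcongr
        by_cases c : x ∈ ({p, q}ᶜ : Set (ℂ × ℂ))
        · obtain ⟨y, hy, d⟩ := Set.mem_iUnion₂.1 (cS (mem_closedBall_zero_iff.2 (hx 0)))
          rw [Set.indicator_of_mem c, inv_mul_eq_div]
          exact le_add_of_nonneg_of_le (by positivity) (div_le_div_of_nonneg_right ((low n x y hx
            (mem_ball.1 d).le).trans (single_le_sum (f := fun y => Q T nx ω n y (a x))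
            (fun _ _ => Q0 _ _ _ ω0 _ _ _) hy)) (by positivity))
        · rw [Set.indicator_of_notMem c, zero_add]
          refine (mul_le_one₀ (inv_le_one_of_one_le₀ S1) (exp_pos _).le (exp_le_one_iff.2 (neg_nonpos.2
            (sum_nonneg fun i _ => Set.indicator_nonneg (fun _ _ => log_nonneg k1) _)))).trans
            (le_add_of_le_of_nonneg ?_ (by positivity))
          rcases not_not.1 c with rfl | rfl <;> simp <;> positivity)
    rw [integral_add (integrable_const _) (by exact i2.add (integrable_finsetSum _ fun i _ => ib i)),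
      integral_add i2 (integrable_finsetSum _ fun i _ => ib i), integral_finsetSum _ fun i _ => ib i,
      integral_indicator_const _ mpq, sum_congr rfl fun i _ => (show ∫ x, β (f^[i] x) ∂ν = ∫ x, β x ∂ν by
        rw [← integral_map (hν.iterate i).aemeasurable (by rw [(hν.iterate i).map_eq]; exact iβ.1),
          (hν.iterate i).map_eq])] at this
    simp only [integral_const, probReal_univ, smul_eq_mul, one_mul, sum_const, card_range, nsmul_eq_mul] at this
    refine le_trans (le_of_eq (sum_congr rfl fun w _ => ?_)) (this.trans ?_)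
    · congr 2; ext x; simp [a, funext_iff]
    · have := mul_le_mul_of_nonneg_left β1 (Nat.cast_nonneg n)
      rw [show r = δ + log (2 * #T) * ν.real {p, q}ᶜ by ring]
      nlinarith
  refine limsup_le_of_le (h := ?_)
  filter_upwards [(tendsto_const_div_atTop_nhds_zero_nat (log 3 + log #S)).eventually
    (gt_mem_nhds (half_pos hr)), eventually_gt_atTop 0] with n h n0
  have : (0 : ℝ) < n := by exact_mod_cast n0
  rw [div_lt_iff₀ this] at h
  exact EReal.coe_le_coe_iff.2 ((div_le_iff₀ this).2 (by linarith [key n]))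

lemma shrink {X : Type} [MeasurableSpace X] (ν : Measure X) [IsFiniteMeasure ν] (A : ℕ → Set X)
    (m : ∀ n, MeasurableSet (A n)) (a : ∀ n, A (n + 1) ⊆ A n) (h : ∀ n, ν (A n) ≤ ν (A (n + 1))) :
    ∀ᵐ x ∂ν, x ∈ A 0 → ∀ n, x ∈ A n := by
  have : ∀ᵐ x ∂ν, ∀ n, x ∉ A n \ A (n + 1) := ae_all_iff.2 fun n => measure_eq_zero_iff_ae_notMem.1 (by
    rw [measure_sdiff (a n) (m _).nullMeasurableSet (measure_ne_top _ _), tsub_eq_zero_iff_le]
    exact h n)
  refine this.mono fun x hx h0 n => ?_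
  induction n with
  | zero => exact h0
  | succ n ih => exact by_contra fun c => hx n ⟨ih, c⟩

end Pool.Agent.H.MP_636246_an
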